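import Pool.Agent.H6.ST.All3
import Pool.Agent.H68.ST.NmC

/-! # The sharp trichotomy (ST) -/

namespace Pool.Agent.H6.ST

open MeasureTheory Set Pool.Agent.H68.VD Pool.Agent.H68.GM
open scoped ENNReal ContDiff

theorem sharp_all :
    ∃ (M : Type) (_ : TopologicalSpace M) (_ : Nonempty M) (ι : Type) (_ : Fintype ι)
      (ch : ι → OpenPartialHomeomorph M (Eu 4)), STS.ClosedVol M ch ∧ (∃ χ, PartUnity ch χ) ∧
      ∀ χ, PartUnity ch χ → ∀ s : ℝ,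
        (s < 0 → STS.gdiam ch (STS.w1M χ s) = 0) ∧
        (0 ≤ s → s < 1 → 0 < STS.gdiam ch (STS.w1M χ s) ∧ STS.gdiam ch (STS.w1M χ s) < ⊤) ∧
        (1 ≤ s → STS.gdiam ch (STS.w1M χ s) = ⊤) :=
  sharp3 Pool.Agent.H68.ST.nm3 Pool.Agent.H68.ST.nm4

end Pool.Agent.H6.ST
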