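import Pool.Agent.H6.ST.CB.W
import Pool.Agent.H6.ST.CB.Mix
import Pool.Agent.H6.ST.CB.Birk
import Pool.Agent.H6.ST.CB.Cos
import Pool.Agent.H6.ST.CB.Blk
import Pool.Agent.H6.ST.CB.Fam
import Pool.Agent.H6.ST.CB.StepA
import Pool.Agent.H6.ST.CB.StepT
import Pool.Agent.H6.ST.CB.StepS
import Pool.Agent.H6.ST.CB.Small
import Pool.Agent.H6.ST.CB.Fin
import Pool.Agent.H6.ST.LP.CK
import Pool.Agent.H6.ST.LP.Cen
import Pool.Agent.H6.ST.LP.Zoom
import Pool.Agent.H6.ST.LP.Germ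
import Pool.Agent.H6.ST.LP.Pull
import Pool.Agent.H6.ST.LP.Pot
import Pool.Agent.H6.ST.LP.Cut
import Pool.Agent.H6.ST.LP.Flow
import Pool.Agent.H6.ST.LP.Ext
import Pool.Agent.H6.ST.LP.Gen
import Pool.Agent.H6.ST.LP.Thm

/-! # The sharp trichotomy (ST): the blocks CB and LP -/

namespace Pool.Agent.H6.ST

theorem lp_all : LPthm :=
  lp_thm (lp_gen cf_kit lp_cen (lp_germ lp_zoom) (lp_ext (lp_cut lp_pull lp_pot) lp_flow))

theorem cb_all (hC : CBChain) : CBthm :=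
  have hM := cb_mix cb_birk cb_cos cb_blk
  have hF := cb_fam hC
  cb_thm (cb_stepA cbw hM hF) (cb_stepT cbw hM hF) (cb_stepS cbw) (cb_small cbw hC)

end Pool.Agent.H6.ST
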