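import Pool.Agent.H68.GM.S

/-! # The definitions of the statement of SharpTrichotomy

A closed manifold with a volume form is a compact connected Hausdorff space `M` with a finite family
of charts `ch i` such that the transition maps `tr ch i j` (on `dom ch i j`) are smooth with Jacobian
determinant one (every volume form has such coordinates). A vector field `X` is given by its
representatives `X i` in the charts. -/

namespace Pool.Agent.H6.STS

open MeasureTheory Set Pool.Agent.H68.VD Pool.Agent.H68.GM
open scoped ENNReal ContDiff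

noncomputable section

variable {n : ℕ}

/-- `ch` is a finite oriented atlas of the closed connected manifold `M` with transition maps that
preserve the standard volume form. -/
structure ClosedVol (M : Type) [TopologicalSpace M] {ι : Type}
    (ch : ι → OpenPartialHomeomorph M (Eu n)) : Prop where
  t2 : T2Space M
  cpt : CompactSpace M
  conn : ConnectedSpace M
  fin : Finite ι
  cover : ∀ x : M, ∃ i, x ∈ (ch i).source
  smooth : ∀ i j, ContDiffOn ℝ ∞ (tr ch i j) (dom ch i j)
  det : ∀ i j, ∀ y ∈ dom ch i j, (fderiv ℝ (tr ch i j) y).det = 1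

/-- The norm of `W^{r,∞}` of Euclidean space, `r ≥ 0` (the Hölder norm if `r` is not an integer). -/
def holdE (r : ℝ) (v : Eu n → Eu n) : ℝ≥0∞ :=
  (∑ k ∈ Finset.range (⌊r⌋₊ + 1), ⨆ x, dnorm k v x) +
    (if (⌊r⌋₊ : ℝ) < r then
      ⨆ (x : Eu n) (h : Eu n) (_ : h ∈ Metric.ball (0 : Eu n) 1),
        dnorm ⌊r⌋₊ (fun y => v (y + h) - v y) x / ‖h‖ₑ ^ (r - ⌊r⌋₊)
    else 0)

/-- The norm of `W^{s,1}` of Euclidean space for every real `s`: for `s ≥ 0` the Sobolev-Slobodeckij
norm, for `s < 0` the dual norm of `W^{-s,∞}`. -/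
def w1R (s : ℝ) (u : Eu n → Eu n) : ℝ≥0∞ :=
  if 0 ≤ s then slobE s 1 u
  else ⨆ (v : Eu n → Eu n) (_ : ContDiff ℝ ∞ v ∧ HasCompactSupport v ∧ holdE (-s) v ≤ 1),
    ENNReal.ofReal |∫ x, inner ℝ (u x) (v x)|

/-- The norm of `W^{s,1}` of vector fields on `M`, defined with a partition of unity `χ`. -/
def w1M {ι : Type} [Fintype ι] (χ : ι → Eu n → ℝ) (s : ℝ) (X : ι → Eu n → Eu n) : ℝ≥0∞ :=
  ∑ i, w1R s (fun y => χ i y • X i y)

/-- The diameter of the identity component of the group of volume preserving diffeomorphisms for the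
right-invariant geodesic distance of the norm `N`. -/
def gdiam {M : Type} [TopologicalSpace M] [Nonempty M] {ι : Type}
    (ch : ι → OpenPartialHomeomorph M (Eu n)) (N : (ι → Eu n → Eu n) → ℝ≥0∞) : ℝ≥0∞ :=
  ⨆ (f : M → M) (_ : MG ch f) (g : M → M) (_ : MG ch g), sdist ch N f g

end

end Pool.Agent.H6.STS
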