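import Pool.Agent.H6.ST.Fin
import Pool.Agent.H6.ST.OR.Defs
import Pool.Agent.H6.ST.S

/-! # The sharp trichotomy (ST): the final form -/

namespace Pool.Agent.H6.ST

open MeasureTheory Set Pool.Agent.H68.VD Pool.Agent.H68.GM
open scoped ENNReal ContDiff

noncomputable section

theorem w1M_eq {n : ℕ} {ι : Type} [Fintype ι] (χ : ι → Eu n → ℝ) (s : ℝ) :
    (STS.w1M χ s : (ι → Eu n → Eu n) → ℝ≥0∞) = w1Man χ s := rfl

theorem gdiam_eq {n : ℕ} {M : Type} [TopologicalSpace M] [Nonempty M] {ι : Type}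
    (ch : ι → OpenPartialHomeomorph M (Eu n)) (N : (ι → Eu n → Eu n) → ℝ≥0∞) :
    STS.gdiam ch N = diam ch N := rfl

theorem sph_oriented (h1 : ORsign) (h2 : ORrefl) (h3 : ORprod) (S : Type) [TopologicalSpace S]
    (A B : OpenPartialHomeomorph S (Eu 2)) (hS : Sph A B) :
    ∃ B' : OpenPartialHomeomorph S (Eu 2), Sph A B' ∧
      ∀ i j : Fin 2 × Fin 2, ∀ y ∈ dom (pch A B') i j, (fderiv ℝ (tr (pch A B') i j) y).det = 1 := by
  rcases h1 S A B hS with h | h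
  · exact ⟨B, hS, h3 S A B hS h⟩
  · obtain ⟨B', hS', h'⟩ := h2 S A B hS h
    exact ⟨B', hS', h3 S A B' hS' h'⟩

/-- The sharp trichotomy. -/
theorem sharp (hE : EKit) (hBU : BUthm) (hq : QCKit) (h1 : ∀ (L : ℕ) (θ : ℝ), Stb L θ id 1)
    (hm : SKmul) (hi : SKinv) (hs : PCswap) (ht : PCtri) (hCB : CBthm) (hR : RELthm)
    (hPm : PPmul) (hPg : PPgen) (hD : DMain) (hN1 : NM1) (hN2 : NM2) (hN3 : NM3) (hN4 : NM4)
    (hG1 : GE1) (hG2 : GE2) (hEX : EXthm) (hPU : PUthm) (hO1 : ORsign) (hO2 : ORrefl)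
    (hO3 : ORprod) :
    ∃ (M : Type) (_ : TopologicalSpace M) (_ : Nonempty M) (ι : Type) (_ : Fintype ι)
      (ch : ι → OpenPartialHomeomorph M (Eu 4)), STS.ClosedVol M ch ∧ (∃ χ, PartUnity ch χ) ∧
      ∀ χ, PartUnity ch χ → ∀ s : ℝ,
        (s < 0 → STS.gdiam ch (STS.w1M χ s) = 0) ∧
        (0 ≤ s → s < 1 → 0 < STS.gdiam ch (STS.w1M χ s) ∧ STS.gdiam ch (STS.w1M χ s) < ⊤) ∧
        (1 ≤ s → STS.gdiam ch (STS.w1M χ s) = ⊤) := by
  obtain ⟨S, tS, A, B₀, hT2, hCo, hCn, hS₀⟩ := hG1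
  obtain ⟨B, hS, hdet⟩ := sph_oriented hO1 hO2 hO3 S A B₀ hS₀
  obtain ⟨K, hG⟩ := hG2 S A B hS
  have : Nonempty S := hCn.toNonempty
  have hex := hEX S A B hS
  refine ⟨S × S, inferInstance, inferInstance, Fin 2 × Fin 2, inferInstance, pch A B,
    ⟨inferInstance, inferInstance, inferInstance, inferInstance, hG.vol.cover, hG.vol.smooth, hdet⟩,
    hPU 4 (S × S) _ _ hG.vol, ?_⟩
  intro χ hχ s
  rw [w1M_eq, gdiam_eq]
  refine ⟨fun hs' => fin_zero (by norm_num) hN2 (S × S) _ _ hG.vol hex χ hχ s hs', ?_, ?_⟩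
  · intro hs0 hs1
    refine ⟨?_, fin_diam hE hBU hq h1 hm hi hs ht hCB hR hPm hPg hD hN1 (S × S) _ _ _ K hG hex χ hχ s
      hs0 hs1⟩
    obtain ⟨f, hf, hpos⟩ := hN3 4 (S × S) _ _ hG.vol χ hχ (by norm_num) s hs0
    refine lt_of_lt_of_le hpos ?_
    unfold diam
    exact le_iSup₂_of_le (id : S × S → S × S) (fin_id _ _ _ hG.vol) (le_iSup₂_of_le f hf le_rfl)
  · intro hs1
    refine ENNReal.eq_top_of_forall_nnreal_le fun r => le_of_lt ?_
    obtain ⟨f, hf, hb⟩ := hN4 4 (S × S) _ _ hG.vol χ hχ (by norm_num) s hs1 (r + 1)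
    refine lt_of_lt_of_le (b := ENNReal.ofReal ((r : ℝ) + 1)) ?_ (hb.trans ?_)
    · rw [← ENNReal.ofReal_coe_nnreal]
      exact (ENNReal.ofReal_lt_ofReal_iff (by positivity)).mpr (by linarith)
    · unfold diam
      exact le_iSup₂_of_le (id : S × S → S × S) (fin_id _ _ _ hG.vol) (le_iSup₂_of_le f hf le_rfl)

end

end Pool.Agent.H6.ST
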