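import Pool.Agent.H6.ST.All1
import Pool.Agent.H6.ST.Fin2
import Pool.Agent.H6.ST.CB.Chain
import Pool.Agent.H6.ST.SK.Mul
import Pool.Agent.H6.ST.SK.Inv
import Pool.Agent.H6.ST.SK.Th
import Pool.Agent.H6.ST.SK.Loc
import Pool.Agent.H6.ST.SK.QC
import Pool.Agent.H6.ST.SK.X3a
import Pool.Agent.H6.ST.SK.X3b
import Pool.Agent.H6.ST.SK.X3c
import Pool.Agent.H6.ST.SK.CommP
import Pool.Agent.H6.ST.SK.Swap
import Pool.Agent.H6.ST.SK.Tri
import Pool.Agent.H6.ST.SK.PPm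
import Pool.Agent.H6.ST.SK.PPg
import Pool.Agent.H6.ST.SK.Rel
import Pool.Agent.H6.ST.DE.Cut
import Pool.Agent.H6.ST.DE.Tr
import Pool.Agent.H6.ST.DE.Prod
import Pool.Agent.H6.ST.DE.Gen
import Pool.Agent.H6.ST.DE.PushB
import Pool.Agent.H6.ST.DE.EMc
import Pool.Agent.H6.ST.DE.GenF
import Pool.Agent.H6.ST.DE.StepL
import Pool.Agent.H6.ST.DE.Dens
import Pool.Agent.H6.ST.DE.Main
import Pool.Agent.H6.ST.OR.Sign
import Pool.Agent.H6.ST.OR.Refl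
import Pool.Agent.H6.ST.OR.Prod

/-! # The sharp trichotomy (ST): the theorem from the blocks of H23 and H68 -/

namespace Pool.Agent.H6.ST

open MeasureTheory Set Pool.Agent.H68.VD Pool.Agent.H68.GM
open scoped ENNReal ContDiff

theorem sharp2 (hF : FKit) (hE : EKit) (hX : XKit) (hT : TMthm) (hBU : BUthm) (hTL : TLthm)
    (hX2 : X2thm) (hBC : BCthm) (hN1 : NM1) (hN2 : NM2) (hN3 : NM3) (hN4 : NM4)
    (hG1 : GE1) (hG2 : GE2) (hEX : EXthm) (hPU : PUthm) :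
    ∃ (M : Type) (_ : TopologicalSpace M) (_ : Nonempty M) (ι : Type) (_ : Fintype ι)
      (ch : ι → OpenPartialHomeomorph M (Eu 4)), STS.ClosedVol M ch ∧ (∃ χ, PartUnity ch χ) ∧
      ∀ χ, PartUnity ch χ → ∀ s : ℝ,
        (s < 0 → STS.gdiam ch (STS.w1M χ s) = 0) ∧
        (0 ≤ s → s < 1 → 0 < STS.gdiam ch (STS.w1M χ s) ∧ STS.gdiam ch (STS.w1M χ s) < ⊤) ∧
        (1 ≤ s → STS.gdiam ch (STS.w1M χ s) = ⊤) := by
  have hTh := sk_th sk_cr
  have hQ := qc_kit hE hX hTh hT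
  have hm := sk_mul cf_kit
  have hi := sk_inv cf_kit
  have hD : DMain := d_main (dens_thm de_cut de_tr de_prod de_gen push_b) (gen_fam hX cf_kit)
    (step_l hE em_cont) hE
  exact sharp hE hBU hQ sk_one hm hi (pc_swap hX2 hF sk_loc hQ)
    (pc_tri hBC x3a (x3b hF comm_path (fe_bd cf_kit)) x3c hF sk_loc hQ) (cb_all (cb_chain cbw))
    (rel_thm lp_all hTL hQ) (pp_mul hE hX hTh hm)
    (pp_gen hBC comm_path hX hTh sk_loc hT) hD hN1 hN2 hN3 hN4 hG1 hG2 hEX hPU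
    or_sign or_refl or_prod

end Pool.Agent.H6.ST
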