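import Pool.Agent.H6.ST.All2
import Pool.Agent.H23.ST.All
import Pool.Agent.H68.ST.FK
import Pool.Agent.H68.ST.EK
import Pool.Agent.H68.ST.XK
import Pool.Agent.H68.ST.TM
import Pool.Agent.H68.ST.NmA
import Pool.Agent.H68.ST.NmB
import Pool.Agent.H68.ST.PU
import Pool.Agent.H68.ST.EX

/-! # The sharp trichotomy (ST): all blocks except the lower bounds -/

namespace Pool.Agent.H6.ST

open MeasureTheory Set Pool.Agent.H68.VD Pool.Agent.H68.GM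
open scoped ENNReal ContDiff

theorem eXthm : EXthm := by
  intro S _ _ _ A B h X hX
  obtain ⟨h1, h2, h3⟩ := Pool.Agent.H23.ST.pch_vol S A B h
  exact Pool.Agent.H68.ST.ex_of h h1 h2 hX

theorem sharp3 (hN3 : NM3) (hN4 : NM4) :
    ∃ (M : Type) (_ : TopologicalSpace M) (_ : Nonempty M) (ι : Type) (_ : Fintype ι)
      (ch : ι → OpenPartialHomeomorph M (Eu 4)), STS.ClosedVol M ch ∧ (∃ χ, PartUnity ch χ) ∧
      ∀ χ, PartUnity ch χ → ∀ s : ℝ,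
        (s < 0 → STS.gdiam ch (STS.w1M χ s) = 0) ∧
        (0 ≤ s → s < 1 → 0 < STS.gdiam ch (STS.w1M χ s) ∧ STS.gdiam ch (STS.w1M χ s) < ⊤) ∧
        (1 ≤ s → STS.gdiam ch (STS.w1M χ s) = ⊤) :=
  sharp2 Pool.Agent.H68.ST.fKit Pool.Agent.H68.ST.eKit Pool.Agent.H68.ST.xKit Pool.Agent.H68.ST.tm
    Pool.Agent.H23.ST.All.bUthm Pool.Agent.H23.ST.All.tLthm
    (Pool.Agent.H23.ST.All.x2thm Pool.Agent.H68.ST.fKit)
    (Pool.Agent.H23.ST.All.bCthm Pool.Agent.H68.ST.fKit) Pool.Agent.H68.ST.nm1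
    Pool.Agent.H68.ST.nm2 hN3 hN4 Pool.Agent.H23.ST.All.gE1 Pool.Agent.H23.ST.All.gE2 eXthm
    Pool.Agent.H68.ST.pu

end Pool.Agent.H6.ST
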