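import Pool.Agent.H68.GM.S

/-! # The sharp trichotomy (ST) for `W^{s,1}`: definitions -/

namespace Pool.Agent.H6.ST

open MeasureTheory Set Pool.Agent.H68.VD Pool.Agent.H68.GM
open scoped ENNReal ContDiff

noncomputable section

variable {n : ℕ}

/-! ### The Sobolev norms with exponent one -/

/-- The norm of `W^{r,∞}` (Hölder norm), `r ≥ 0`. -/
def supE (r : ℝ) (v : Eu n → Eu n) : ℝ≥0∞ :=
  (∑ k ∈ Finset.range (⌊r⌋₊ + 1), ⨆ x, dnorm k v x) +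
    (if (⌊r⌋₊ : ℝ) < r then
      ⨆ (x : Eu n) (h : Eu n) (_ : h ∈ Metric.ball (0 : Eu n) 1),
        dnorm ⌊r⌋₊ (fun y => v (y + h) - v y) x / ‖h‖ₑ ^ (r - ⌊r⌋₊)
    else 0)

/-- The norm of `W^{s,1}` of Euclidean space for every real `s`: for `s ≥ 0` the Sobolev-Slobodeckij
norm, for `s < 0` the dual norm of `W^{-s,∞}`. -/
def w1E (s : ℝ) (u : Eu n → Eu n) : ℝ≥0∞ :=
  if 0 ≤ s then slobE s 1 u
  else ⨆ (v : Eu n → Eu n) (_ : ContDiff ℝ ∞ v ∧ HasCompactSupport v ∧ supE (-s) v ≤ 1),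
    ENNReal.ofReal |∫ x, inner ℝ (u x) (v x)|

/-- The norm of `W^{s,1}` of vector fields on `M`, defined with a partition of unity `χ`. -/
def w1Man {ι : Type} [Fintype ι] (χ : ι → Eu n → ℝ) (s : ℝ) (X : ι → Eu n → Eu n) : ℝ≥0∞ :=
  ∑ i, w1E s (fun y => χ i y • X i y)

/-- The diameter of the group for the norm `N`. -/
def diam {M : Type} [TopologicalSpace M] [Nonempty M] {ι : Type}
    (ch : ι → OpenPartialHomeomorph M (Eu n)) (N : (ι → Eu n → Eu n) → ℝ≥0∞) : ℝ≥0∞ :=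
  ⨆ (f : M → M) (_ : MG ch f) (g : M → M) (_ : MG ch g), sdist ch N f g

/-! ### The auxiliary cost on `M` -/

section M

variable {M : Type} [TopologicalSpace M] {ι : Type}

/-- Compact subsets of the charts whose interiors cover `M`. -/
structure KCov (ch : ι → OpenPartialHomeomorph M (Eu n)) (K : ι → Set (Eu n)) : Prop where
  cpt : ∀ i, IsCompact (K i)
  sub : ∀ i, K i ⊆ (ch i).target
  cov : ∀ x : M, ∃ i, x ∈ (ch i).source ∧ ch i x ∈ interior (K i)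

/-- The `L^1` norm. -/
def L1M [Fintype ι] (K : ι → Set (Eu n)) (X : ι → Eu n → Eu n) : ℝ≥0∞ :=
  ∑ i, ∫⁻ y in K i, ‖X i y‖ₑ

/-- The `W^{1,1}` norm. -/
def W1M [Fintype ι] (K : ι → Set (Eu n)) (X : ι → Eu n → Eu n) : ℝ≥0∞ :=
  ∑ i, ∫⁻ y in K i, (‖X i y‖ₑ + ‖fderiv ℝ (X i) y‖ₑ)

/-- The cost functional `|X|_1^{1-s} |X|_{1,1}^s`. -/
def EM [Fintype ι] (K : ι → Set (Eu n)) (s : ℝ) (X : ι → Eu n → Eu n) : ℝ≥0∞ :=
  (L1M K X) ^ (1 - s) * (W1M K X) ^ s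

end M

/-! ### Compactly supported families in Euclidean space -/

/-- A smooth family of volume preserving diffeomorphisms with a common compact support in `U`. -/
structure CF (U : Set (Eu n)) {E : Type*} [NormedAddCommGroup E] [NormedSpace ℝ E]
    (F : E → Eu n → Eu n) : Prop where
  smooth : ContDiff ℝ ∞ (fun q : E × Eu n => F q.1 q.2)
  bij : ∀ e, Function.Bijective (F e)
  det : ∀ e x, (fderiv ℝ (F e) x).det = 1
  supp : ∃ K : Set (Eu n), IsCompact K ∧ K ⊆ U ∧ ∀ e, ∀ x ∉ K, F e x = x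

/-- A path from the identity to `f` which is constant outside of the unit interval. -/
structure CPath (U : Set (Eu n)) (f : Eu n → Eu n) (Φ : ℝ → Eu n → Eu n) : Prop where
  fam : CF U Φ
  le0 : ∀ t ≤ 0, ∀ x, Φ t x = x
  ge1 : ∀ t, 1 ≤ t → ∀ x, Φ t x = f x

/-- The flat cost functional. -/
def FE (s : ℝ) (u : Eu n → Eu n) : ℝ≥0∞ :=
  (∫⁻ x, ‖u x‖ₑ) ^ (1 - s) * (∫⁻ x, ‖fderiv ℝ u x‖ₑ) ^ s

/-- `f` can be joined to the identity inside of `U` at the cost `a`. -/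
def FCost (s : ℝ) (U : Set (Eu n)) (f : Eu n → Eu n) (a : ℝ) : Prop :=
  ∃ (φ : ℝ → Eu n → Eu n) (l : ℝ → ℝ), CF U φ ∧ φ 0 = id ∧ φ 1 = f ∧ Continuous l ∧
    (∀ t, 0 ≤ l t) ∧ (∀ t ∈ Set.Icc (0 : ℝ) 1, FE s (vel φ t) ≤ ENNReal.ofReal (l t)) ∧
    ∫ t in (0 : ℝ)..1, l t ≤ a

/-- The open box with the corners `a` and `b`. -/
def obox (a b : Fin n → ℝ) : Set (Eu n) := {x | ∀ k, a k < x k ∧ x k < b k}

/-! ### The lattice -/

/-- The cells of the inner cube. -/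
abbrev Cell (L : ℕ) := Fin 4 → Fin (2 ^ L)

/-- The number of cells of the big cube in one direction: two more than for the inner cube. -/
def NN (L : ℕ) : ℕ := 2 ^ L + 2

/-- The position of an inner cell in the big cube `(0, NN L)^4`. -/
def pos {L : ℕ} (i : Cell L) : Fin 4 → ℤ := fun k => ((i k : ℕ) : ℤ) + 1

/-- The big cube. -/
def bigC (L : ℕ) : Set (Eu 4) := obox (fun _ => 0) (fun _ => NN L)

/-- The inner cube. -/
def innC (L : ℕ) : Set (Eu 4) := obox (fun _ => 1) (fun _ => (NN L : ℝ) - 1)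

/-- The centre of the cell `c`. -/
def ctr (c : Fin n → ℤ) : Eu n := WithLp.toLp 2 (fun k => (c k : ℝ) + 1 / 2)

/-- The core of the cell `c`. -/
def core (θ : ℝ) (c : Fin n → ℤ) : Set (Eu n) := {x | ∀ k, |x k - ((c k : ℝ) + 1 / 2)| ≤ 1 / 2 - θ}

/-- `c` is a cell of the big cube. -/
def BigCell (L : ℕ) (c : Fin 4 → ℤ) : Prop := ∀ k, 0 ≤ c k ∧ c k < (NN L : ℤ)

/-- The loop `A` of matrices of determinant one is contractible: `H` is a smooth contraction which is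
constant outside of the unit square. -/
structure Contr (A : ℝ → Eu n →L[ℝ] Eu n) (H : ℝ → ℝ → Eu n →L[ℝ] Eu n) : Prop where
  smooth : ContDiff ℝ ∞ (fun q : ℝ × ℝ => H q.1 q.2)
  det : ∀ u t, (H u t).det = 1
  u0 : ∀ u ≤ 0, ∀ t, H u t = A t
  u1 : ∀ u, 1 ≤ u → ∀ t, H u t = ContinuousLinearMap.id ℝ (Eu n)
  t0 : ∀ u, ∀ t ≤ 0, H u t = ContinuousLinearMap.id ℝ (Eu n)
  t1 : ∀ u t, 1 ≤ t → H u t = ContinuousLinearMap.id ℝ (Eu n)

/-- `F` is supported in the inner cube, it permutes the cores of the inner cells by `σ` (by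
translations), and it is tracked by a path in the big cube along which the frames at the centres of the
cells describe contractible loops. -/
structure Stb (L : ℕ) (θ : ℝ) (F : Eu 4 → Eu 4) (σ : Equiv.Perm (Cell L)) : Prop where
  inner : ∃ K : Set (Eu 4), IsCompact K ∧ K ⊆ innC L ∧ ∀ x ∉ K, F x = x
  rigid : ∀ i : Cell L, ∀ x ∈ core θ (pos i), F x = x + (iv (pos (σ i)) - iv (pos i))
  path : ∃ Φ : ℝ → Eu 4 → Eu 4, CPath (bigC L) F Φ ∧ ∀ c, BigCell L c →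
    ∃ H, Contr (fun t => fderiv ℝ (Φ t) (ctr c)) H

/-- The box with the integer corners `lo` and `hi`. -/
def ibox (lo hi : Fin 4 → ℤ) : Set (Eu 4) := obox (fun k => (lo k : ℝ)) (fun k => (hi k : ℝ))

/-- `F` is a volume preserving diffeomorphism with compact support in `U` that moves each core by an
integer translation. -/
structure CR (θ : ℝ) (U : Set (Eu 4)) (F : Eu 4 → Eu 4) : Prop where
  smooth : ContDiff ℝ ∞ F
  bij : Function.Bijective F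
  det : ∀ x, (fderiv ℝ F x).det = 1
  supp : ∃ K : Set (Eu 4), IsCompact K ∧ K ⊆ U ∧ ∀ x ∉ K, F x = x
  rigid : ∀ c : Fin 4 → ℤ, ∃ k : Fin 4 → ℤ, ∀ x ∈ core θ c, F x = x + iv k

/-! ### The blow-up -/

/-- The blow-up field of the profile `s`. -/
def v0 (s : ℝ → ℝ) (x : Eu 4) : Eu 4 :=
  WithLp.toLp 2 (fun k => s (x k) * ∏ j ∈ Finset.univ.filter (· < k), (1 - deriv s (x j)))

/-- The conjugation by the blow-up flow `ζ`. -/
def Th (ζ : ℝ → Eu 4 → Eu 4) (τ : ℝ) (F : Eu 4 → Eu 4) (x : Eu 4) : Eu 4 := ζ τ (F (ζ (-τ) x))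

/-- `ζ` is a blow-up flow with the core parameter `θ`. -/
structure Blow (s θ : ℝ) (ζ : ℝ → Eu 4 → Eu 4) : Prop where
  pos : 0 < θ
  lt : θ < 1 / 4
  smooth : ContDiff ℝ ∞ (fun q : ℝ × Eu 4 => ζ q.1 q.2)
  zero : ∀ x, ζ 0 x = x
  add : ∀ a b x, ζ (a + b) x = ζ a (ζ b x)
  per : ∀ τ x (k : Fin 4 → ℤ), ζ τ (x + iv k) = ζ τ x + iv k
  box : ∀ τ (lo hi : Fin 4 → ℤ), ∀ x ∈ ibox lo hi, ζ τ x ∈ ibox lo hi
  cost : ∀ B : ℝ, ∃ C : ℝ, 0 ≤ C ∧ ∀ (lo hi : Fin 4 → ℤ) (F : Eu 4 → Eu 4), (∀ k, lo k ≤ hi k) →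
    CR θ (ibox lo hi) F →
    (∀ x, ‖fderiv ℝ F x‖ ≤ B ∧ ‖fderiv ℝ (fderiv ℝ F) x‖ ≤ B) → ∀ τ ≤ 0,
    FCost s (ibox lo hi) (fun x => Th ζ τ F (Function.invFun F x)) (C * ∏ k, ((hi k : ℝ) - lo k))
  rel : ∀ (L : ℕ) (w : Eu 4 → Eu 4) (Φ : ℝ → Eu 4 → Eu 4), CPath (bigC L) w Φ →
    (∃ K : Set (Eu 4), IsCompact K ∧ K ⊆ innC L ∧ ∀ x ∉ K, w x = x) →
    (∀ t c, BigCell L c → ∀ x ∈ core θ c, Φ t x = x) → ∃ c' : ℝ, 0 < c' ∧ ∀ η : ℝ, 0 < η →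
    ∃ τ₀ : ℝ, τ₀ ≤ 0 ∧ ∀ τ ≤ τ₀,
      FCost s (obox (fun _ => c') (fun _ => (NN L : ℝ) - c')) (Th ζ τ w) η

/-! ### Commutators of shears -/

/-- The shear `x ↦ x + f(x) e_i`. -/
def shear (i : Fin 4) (f : Eu 4 → ℝ) (x : Eu 4) : Eu 4 := x + f x • ev i

/-- The commutator `S_f S_g S_f⁻¹ S_g⁻¹` of the shears in the directions `i` and `j`. -/
def comm (i j : Fin 4) (f g : Eu 4 → ℝ) (x : Eu 4) : Eu 4 :=
  shear i f (shear j g (shear i (fun y => - f y) (shear j (fun y => - g y) x)))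

/-- The data of a commutator: `f` does not depend on `x_i` and `g` does not depend on `x_j`, they are
supported over the box with the corners `lo` and `hi` and have values in `[-Fm, Fp]` and
`[-Gm, Gp]`. -/
structure CG (i j : Fin 4) (f g : Eu 4 → ℝ) (lo hi : Fin 4 → ℝ) (Fm Fp Gm Gp : ℝ) : Prop where
  ne : i ≠ j
  fs : ContDiff ℝ ∞ f
  gs : ContDiff ℝ ∞ g
  fi : ∀ x (a : ℝ), f (x + a • ev i) = f x
  gj : ∀ x (a : ℝ), g (x + a • ev j) = g x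
  fsupp : ∀ x, f x ≠ 0 → ∀ k, k ≠ i → lo k ≤ x k ∧ x k ≤ hi k
  gsupp : ∀ x, g x ≠ 0 → ∀ k, k ≠ j → lo k ≤ x k ∧ x k ≤ hi k
  fb : ∀ x, -Fm ≤ f x ∧ f x ≤ Fp
  gb : ∀ x, -Gm ≤ g x ∧ g x ≤ Gp
  nn : 0 ≤ Fm ∧ 0 ≤ Fp ∧ 0 ≤ Gm ∧ 0 ≤ Gp
  lh : ∀ k, lo k ≤ hi k

/-- The lower and the upper corner of a box that contains the support of the commutator. -/
def cLo (i j : Fin 4) (lo : Fin 4 → ℝ) (Fm Gm : ℝ) (k : Fin 4) : ℝ :=
  lo k - (if k = i then Fm else 0) - (if k = j then Gm else 0)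

def cHi (i j : Fin 4) (hi : Fin 4 → ℝ) (Fp Gp : ℝ) (k : Fin 4) : ℝ :=
  hi k + (if k = i then Fp else 0) + (if k = j then Gp else 0)

/-- The data of a commutator supported in the open unit cube. -/
def GU (i j : Fin 4) (f g : Eu 4 → ℝ) : Prop :=
  ∃ (lo hi : Fin 4 → ℝ) (Fb Gb : ℝ), CG i j f g lo hi Fb Fb Gb Gb ∧
    ∀ k, 0 < cLo i j lo Fb Gb k ∧ cHi i j hi Fb Gb k < 1

/-- The velocity of `t ↦ comm i j (t f) g` at `t = 0`. -/
def vfg (i j : Fin 4) (f g : Eu 4 → ℝ) (x : Eu 4) : Eu 4 :=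
  f x • ev i - f (x - g x • ev j) • (ev i + fderiv ℝ g x (ev i) • ev j)

/-- The integer map of a quantized commutator. -/
def qmap (i j : Fin 4) (f g : Eu 4 → ℝ) (c : Fin 4 → ℤ) : Fin 4 → ℤ :=
  let c1 := c - Pi.single j (round (g (ctr c)))
  let c2 := c1 - Pi.single i (round (f (ctr c1)))
  let c3 := c2 + Pi.single j (round (g (ctr c2)))
  c3 + Pi.single i (round (f (ctr c3)))

/-! ### Geometry -/

section Geo

variable {M : Type} [TopologicalSpace M] {ι : Type}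

/-- The map of `M` which is the map `F` of the cube `(0,N)^4`, scaled by `1/N`, in the chart `i`. -/
def toM (ch : ι → OpenPartialHomeomorph M (Eu 4)) (i : ι) (N : ℕ) (F : Eu 4 → Eu 4) : M → M :=
  extM ch i (fun x => (N : ℝ)⁻¹ • F ((N : ℝ) • x))

/-- The geometry that is used: the chart `o` is the open unit cube, its complement is contained in two
coordinate planes in each other chart, and the norms of fields supported in the cube at distance at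
least `d` from its faces are controlled. -/
structure Geo [Fintype ι] (ch : ι → OpenPartialHomeomorph M (Eu 4)) (o : ι)
    (K : ι → Set (Eu 4)) : Prop where
  vol : VolAtlas ch
  cov : KCov ch K
  tgt : (ch o).target = obox (fun _ => 0) (fun _ => 1)
  cod : ∀ i, ∀ y ∈ (ch i).target, (ch i).symm y ∉ (ch o).source →
    (y 0 = 0 ∧ y 1 = 0) ∨ (y 2 = 0 ∧ y 3 = 0)
  wgt : ∃ C : ℝ, 0 ≤ C ∧ ∀ d : ℝ, 0 < d → ∀ u : Eu 4 → Eu 4, ContDiff ℝ ∞ u →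
    (∀ x, u x ≠ 0 → ∀ k, d ≤ x k ∧ x k ≤ 1 - d) →
    L1M K (push ch o u) ≤ ENNReal.ofReal (C * d ^ (-(1 / 2) : ℝ)) * (∫⁻ x, ‖u x‖ₑ) ∧
    W1M K (push ch o u) ≤ ENNReal.ofReal (C * d⁻¹) * (∫⁻ x, ‖fderiv ℝ u x‖ₑ) +
      ENNReal.ofReal (C * (d ^ 2)⁻¹) * (∫⁻ x, ‖u x‖ₑ)

/-- The limit cost of the lattice map `F`. -/
def QC [Fintype ι] [Nonempty M] (ch : ι → OpenPartialHomeomorph M (Eu 4)) (o : ι)
    (K : ι → Set (Eu 4)) (s : ℝ) (ζ : ℝ → Eu 4 → Eu 4) (L : ℕ) (F : Eu 4 → Eu 4) (a : ℝ) : Prop :=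
  ∀ η : ℝ, 0 < η → ∃ τ₀ : ℝ, τ₀ ≤ 0 ∧ ∀ τ ≤ τ₀,
    MCost ch (EM K s) (toM ch o (NN L) (Th ζ τ F)) (a + η)

/-- The maps which are approximated by lattice maps. -/
def PP [Fintype ι] [Nonempty M] (ch : ι → OpenPartialHomeomorph M (Eu 4)) (o : ι)
    (K : ι → Set (Eu 4)) (s θ : ℝ) (ζ : ℝ → Eu 4 → Eu 4) (f : M → M) : Prop :=
  InGM ch f ∧ ∀ η : ℝ, 0 < η → ∃ L₀ : ℕ, ∀ L, L₀ ≤ L → ∃ (F : Eu 4 → Eu 4)
    (σ : Equiv.Perm (Cell L)), Stb L θ F σ ∧ ∀ τ ≤ 0,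
      MCost ch (EM K s) (fun x => f (Function.invFun (toM ch o (NN L) (Th ζ τ F)) x)) η

end Geo

/-! ### The sphere and the product of two spheres -/

/-- `S` is a sphere with the charts `A` (the open unit square, the complement is a point) and `B`
(around this point), with control of the transition map near the boundary of the square. -/
structure Sph {S : Type} [TopologicalSpace S] (A B : OpenPartialHomeomorph S (Eu 2)) : Prop where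
  tgtA : A.target = obox (fun _ => 0) (fun _ => 1)
  tgtB : ∃ r : ℝ, 0 < r ∧ B.target = obox (fun _ => -r) (fun _ => r)
  cover : ∀ x, x ∈ A.source ∨ x ∈ B.source
  pt : ∀ y ∈ B.target, B.symm y ∉ A.source → y = 0
  smAB : ContDiffOn ℝ ∞ (fun y => B (A.symm y)) {y | y ∈ A.target ∧ A.symm y ∈ B.source}
  smBA : ContDiffOn ℝ ∞ (fun y => A (B.symm y)) {y | y ∈ B.target ∧ B.symm y ∈ A.source}
  det : ∀ y, y ∈ A.target → A.symm y ∈ B.source → |(fderiv ℝ (fun y => B (A.symm y)) y).det| = 1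
  bds : ∃ C : ℝ, ∀ d : ℝ, 0 < d → ∀ y : Eu 2, (∀ k, d ≤ y k ∧ y k ≤ 1 - d) → A.symm y ∈ B.source →
    ‖fderiv ℝ (fun y => B (A.symm y)) y‖ ≤ C * d ^ (-(1 / 2) : ℝ) ∧
    ‖fderiv ℝ (fun y => A (B.symm y)) (B (A.symm y))‖ ≤ C * d ^ (-(1 / 2) : ℝ) ∧
    ‖fderiv ℝ (fderiv ℝ (fun y => B (A.symm y))) y‖ ≤ C * d ^ (-(3 / 2) : ℝ)

/-- The identification of `Eu 2 × Eu 2` with `Eu 4`. -/
def j4 : (Eu 2 × Eu 2) ≃ₜ Eu 4 where
  toFun p := WithLp.toLp 2 ![p.1 0, p.1 1, p.2 0, p.2 1]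
  invFun x := (WithLp.toLp 2 ![x 0, x 1], WithLp.toLp 2 ![x 2, x 3])
  left_inv p := by
    ext k <;> fin_cases k <;> rfl
  right_inv x := by
    ext k; fin_cases k <;> rfl
  continuous_toFun := by
    refine (PiLp.continuous_toLp 2 _).comp (continuous_pi fun k => ?_)
    fin_cases k <;> simp <;> fun_prop
  continuous_invFun := by
    refine Continuous.prodMk ?_ ?_ <;>
    · refine (PiLp.continuous_toLp 2 _).comp (continuous_pi fun k => ?_)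
      fin_cases k <;> simp <;> fun_prop

/-- The four charts of the product of two spheres. -/
def pch {S : Type} [TopologicalSpace S] (A B : OpenPartialHomeomorph S (Eu 2)) (p : Fin 2 × Fin 2) :
    OpenPartialHomeomorph (S × S) (Eu 4) :=
  ((if p.1 = 0 then A else B).prod (if p.2 = 0 then A else B)).trans
    j4.toOpenPartialHomeomorph

/-! ### Combinatorics -/

/-- The weight of the dyadic cube of level `l` (side `2^{-l}`) at the position `d`. -/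
def wt (a : ℝ) (l : ℕ) (d : Fin 4 → ℕ) : ℝ :=
  ∑ k, ((((d k : ℝ) + 1) / 2 ^ l) ^ (-a) + (((2 : ℝ) ^ l - d k) / 2 ^ l) ^ (-a))

/-- The dyadic cube of level `l` that contains the cell `x`. -/
def cubeOf {L : ℕ} (l : ℕ) (x : Cell L) : Fin 4 → ℕ := fun k => (x k : ℕ) / 2 ^ (L - l)

/-- The cell `x` has distance at least `r` (in cells) from the faces of its dyadic cube of level `l`. -/
def Deep {L : ℕ} (l r : ℕ) (x : Cell L) : Prop :=
  ∀ k, r ≤ (x k : ℕ) % 2 ^ (L - l) ∧ (x k : ℕ) % 2 ^ (L - l) + r < 2 ^ (L - l)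

/-- Costs of permutations of cells. -/
structure PC (q a C0 : ℝ) (Ck : ℕ → ℝ) (L : ℕ) (P : Equiv.Perm (Cell L) → ℝ → Prop) : Prop where
  one : P 1 0
  mono : ∀ σ b c, b ≤ c → P σ b → P σ c
  mul : ∀ σ τ b c, P σ b → P τ c → P (σ * τ) (b + c)
  inv : ∀ σ b, P σ b → P σ⁻¹ b
  swap : ∀ x y : Cell L, (∃ k, (y k : ℕ) = x k + 1 ∧ ∀ m, m ≠ k → y m = x m) →
    P (Equiv.swap x y) (C0 * wt a L (fun k => x k) * (2 ^ L : ℝ) ^ (-q))
  tri : ∀ (κ l : ℕ), l + κ + 4 ≤ L → ∀ (d₁ d₂ d₃ : Fin 4 → ℕ) (i j : Fin 4), i ≠ j →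
    (∀ k, d₁ k < 2 ^ l ∧ d₂ k < 2 ^ l ∧ d₃ k < 2 ^ l) →
    ((d₂ i = d₁ i + 1 ∨ d₂ i + 1 = d₁ i) ∧ ∀ m, m ≠ i → d₂ m = d₁ m) →
    ((d₃ j = d₁ j + 1 ∨ d₃ j + 1 = d₁ j) ∧ ∀ m, m ≠ j → d₃ m = d₁ m) →
    ∃ σ : Equiv.Perm (Cell L), P σ (Ck κ * wt a l d₁ * (2 ^ l : ℝ) ^ (-q)) ∧
      (∀ x, σ x ≠ x → cubeOf l x = d₁ ∨ cubeOf l x = d₂ ∨ cubeOf l x = d₃) ∧
      (∀ x, cubeOf l x = d₁ → Deep l (2 ^ (L - l - κ)) x →
        cubeOf l (σ x) = d₂ ∧ ∀ k, (σ x k : ℕ) % 2 ^ (L - l) = (x k : ℕ) % 2 ^ (L - l)) ∧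
      (∀ x, cubeOf l x = d₂ → Deep l (2 ^ (L - l - κ)) x →
        cubeOf l (σ x) = d₃ ∧ ∀ k, (σ x k : ℕ) % 2 ^ (L - l) = (x k : ℕ) % 2 ^ (L - l)) ∧
      (∀ x, cubeOf l x = d₃ → Deep l (2 ^ (L - l - κ)) x →
        cubeOf l (σ x) = d₁ ∧ ∀ k, (σ x k : ℕ) % 2 ^ (L - l) = (x k : ℕ) % 2 ^ (L - l))

end

end Pool.Agent.H6.ST
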