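import Pool.Agent.H6.ST.SK.Defs
import Pool.Agent.H6.ST.DE.Defs
import Pool.Agent.H68.GM.Tr

/-! # The sharp trichotomy (ST): the assembly -/

namespace Pool.Agent.H6.ST

open MeasureTheory Set Pool.Agent.H68.VD Pool.Agent.H68.GM
open scoped ENNReal ContDiff

noncomputable section

theorem fin_mcost_mono {n : ℕ} {M : Type} [TopologicalSpace M] [Nonempty M] {ι : Type}
    {ch : ι → OpenPartialHomeomorph M (Eu n)} {N : (ι → Eu n → Eu n) → ℝ≥0∞} {f : M → M} {a b : ℝ}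
    (h : MCost ch N f a) (hab : a ≤ b) : MCost ch N f b := by
  obtain ⟨φ, l, h1, h2, h3, h4, h5, h6, h7⟩ := h
  exact ⟨φ, l, h1, h2, h3, h4, h5, h6, h7.trans hab⟩

theorem fin_mcost_bij {n : ℕ} {M : Type} [TopologicalSpace M] [Nonempty M] {ι : Type}
    {ch : ι → OpenPartialHomeomorph M (Eu n)} {N : (ι → Eu n → Eu n) → ℝ≥0∞} {f : M → M} {a : ℝ}
    (h : MCost ch N f a) : Function.Bijective f := by
  obtain ⟨φ, l, h1, h2, h3, h4, h5, h6, h7⟩ := h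
  rw [← h3]
  exact h1.bij 1

theorem fin_mcost_norm {n : ℕ} {M : Type} [TopologicalSpace M] [Nonempty M] {ι : Type}
    {ch : ι → OpenPartialHomeomorph M (Eu n)} (hV : VolAtlas ch)
    {N N' : (ι → Eu n → Eu n) → ℝ≥0∞} {C : ℝ} (hC : 0 ≤ C)
    (hN : ∀ X, IsFld ch X → N' X ≤ ENNReal.ofReal C * N X) {f : M → M} {a : ℝ}
    (h : MCost ch N f a) : MCost ch N' f (C * a) := by
  obtain ⟨φ, l, h1, h2, h3, h4, h5, h6, h7⟩ := h
  refine ⟨φ, fun t => C * l t, h1, h2, h3, continuous_const.mul h4, fun t => mul_nonneg hC (h5 t),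
    ?_, ?_⟩
  · intro t ht
    refine (hN _ (mFamKit.velFld n M ι ch hV φ h1 t)).trans ?_
    rw [ENNReal.ofReal_mul hC]
    exact mul_le_mul_right (h6 t ht) _
  · rw [intervalIntegral.integral_const_mul]
    exact mul_le_mul_of_nonneg_left h7 hC

theorem fin_qc_mono {M : Type} [TopologicalSpace M] {ι : Type} [Fintype ι] [Nonempty M]
    {ch : ι → OpenPartialHomeomorph M (Eu 4)} {o : ι} {K : ι → Set (Eu 4)} {s : ℝ}
    {ζ : ℝ → Eu 4 → Eu 4} {L : ℕ} {F : Eu 4 → Eu 4} {a b : ℝ} (h : QC ch o K s ζ L F a)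
    (hab : a ≤ b) : QC ch o K s ζ L F b := by
  intro η hη
  obtain ⟨τ₀, h0, h1⟩ := h η hη
  exact ⟨τ₀, h0, fun τ hτ => fin_mcost_mono (h1 τ hτ) (by linarith)⟩

theorem pc_thm (hq : QCKit) (h1 : ∀ (L : ℕ) (θ : ℝ), Stb L θ id 1) (hm : SKmul) (hi : SKinv)
    (hs : PCswap) (ht : PCtri) : PCthm := by
  intro M _ _ _ _ ι _ ch o K hG s θ ζ hs0 hs1 hB
  obtain ⟨C0, hC0, hsw⟩ := hs M ι ch o K hG s θ ζ hs0 hs1 hB
  choose Ck hCk htr using ht M ι ch o K hG s θ ζ hs0 hs1 hB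
  refine ⟨C0, Ck, hC0, hCk, fun L => ?_⟩
  refine ⟨⟨id, h1 L θ, hq.one M ι ch o K hG s θ ζ hs0 hs1 hB L⟩, ?_, ?_, ?_, ?_, ?_⟩
  · rintro σ b c hbc ⟨F, hF, hQ⟩
    exact ⟨F, hF, fin_qc_mono hQ hbc⟩
  · rintro σ τ b c ⟨F, hF, hQ⟩ ⟨G, hG', hQ'⟩
    exact ⟨fun x => F (G x), hm L θ hB.pos hB.lt F G σ τ hF hG',
      hq.mul M ι ch o K hG s θ ζ hs0 hs1 hB L F G σ τ b c hF hG' hQ hQ'⟩
  · rintro σ b ⟨F, hF, hQ⟩
    exact ⟨Function.invFun F, hi L θ hB.pos hB.lt F σ hF,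
      hq.inv M ι ch o K hG s θ ζ hs0 hs1 hB L F σ b hF hQ⟩
  · intro x y hxy
    exact hsw L x y hxy
  · intro κ l hl d₁ d₂ d₃ i j hij hd h2 h3
    exact htr κ L l hl d₁ d₂ d₃ i j hij hd h2 h3

/-- All exact paths have bounded cost. -/
theorem fin_bound (hE : EKit) (hBU : BUthm) (hq : QCKit) (h1 : ∀ (L : ℕ) (θ : ℝ), Stb L θ id 1)
    (hm : SKmul) (hi : SKinv) (hs : PCswap) (ht : PCtri) (hCB : CBthm) (hR : RELthm)
    (hPm : PPmul) (hPg : PPgen) (hD : DMain) (M : Type) [TopologicalSpace M] [T2Space M]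
    [CompactSpace M] [Nonempty M] (ι : Type) [Fintype ι] (ch : ι → OpenPartialHomeomorph M (Eu 4))
    (o : ι) (K : ι → Set (Eu 4)) (hG : Geo ch o K) (hex : ∀ X, DivFree ch X → Exact ch X) (s : ℝ)
    (hs0 : 0 ≤ s) (hs1 : s < 1) : ∃ C : ℝ, 0 ≤ C ∧ ∀ f, InGM ch f → MCost ch (EM K s) f C := by
  obtain ⟨θ, ζ, hB⟩ := hBU s hs0 hs1
  obtain ⟨C0, Ck, hC0, hCk, hPC⟩ := pc_thm hq h1 hm hi hs ht M ι ch o K hG s θ ζ hs0 hs1 hB
  obtain ⟨Cs, hCs, hP⟩ := hCB (5 - s) ((1 + s) / 2) (by linarith) (by linarith) (by linarith) C0 Ck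
    hC0 hCk
  have hpp : ∀ f, PP ch o K s θ ζ f → MCost ch (EM K s) f (1 + (Cs + 0 + 1)) := by
    rintro f ⟨-, hf⟩
    obtain ⟨L, hL⟩ := hf 1 one_pos
    obtain ⟨F, σ, hF, hc⟩ := hL L le_rfl
    obtain ⟨Q, hQ1, hQ2⟩ := hP L _ (hPC L) σ
    have hQi := hi L θ hB.pos hB.lt Q σ hQ1
    have hw : Stb L θ (fun x => Function.invFun Q (F x)) 1 := by
      have := hm L θ hB.pos hB.lt _ _ _ _ hQi hF
      rwa [inv_mul_cancel] at this
    have hw0 := hR M ι ch o K hG s θ ζ hs0 hs1 hB L _ hw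
    have hQbij : Function.Bijective Q := by
      obtain ⟨Φ, hΦ, -⟩ := hQ1.path
      have : Q = Φ 1 := by funext x; exact (hΦ.ge1 1 le_rfl x).symm
      rw [this]; exact hΦ.fam.bij 1
    have hFe : (fun x => Q (Function.invFun Q (F x))) = F := by
      funext x
      exact Function.rightInverse_invFun hQbij.2 (F x)
    have hFq := hq.mul M ι ch o K hG s θ ζ hs0 hs1 hB L Q _ σ 1 Cs 0 hQ1 hw hQ2 hw0
    rw [hFe] at hFq
    obtain ⟨τ₀, hτ0, hτ⟩ := hFq 1 one_pos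
    have hA := hτ τ₀ le_rfl
    have hA' := hc τ₀ hτ0
    have hcomp := hE.comp 4 M ι ch hG.vol K hG.cov s hs0 hs1 _ _ _ _ hA' hA
    have he : (fun x => f (Function.invFun (toM ch o (NN L) (Th ζ τ₀ F))
        (toM ch o (NN L) (Th ζ τ₀ F) x))) = f := by
      funext x
      rw [Function.leftInverse_invFun (fin_mcost_bij hA).1 x]
    rwa [he] at hcomp
  refine ⟨1 + (1 + (Cs + 0 + 1)), by linarith, ?_⟩
  rintro f ⟨φ, hφ, hφ0, rfl⟩
  have hexφ : ∀ t, Exact ch (mvel ch φ t) := by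
    intro t
    have hfld := mFamKit.velFld 4 M ι ch hG.vol φ hφ t
    exact hex _ ⟨hfld.smooth, hfld.out, hfld.compat,
      fun i y hy => mVelDiv mFamKit 4 M ι ch hG.vol φ hφ t i y hy⟩
  obtain ⟨p, hp, hc⟩ := hD M ι ch o K hG s hs0 hs1 (PP ch o K s θ ζ)
    (fun f g hf hg => hPm M ι ch o K hG s θ ζ hs0 hs1 hB f g hf hg)
    (fun i j f g h => hPg M ι ch o K hG s θ ζ hs0 hs1 hB i j f g h) φ hφ hφ0 hexφ 1 one_pos
  have hcomp := hE.comp 4 M ι ch hG.vol K hG.cov s hs0 hs1 _ _ _ _ hc (hpp p hp)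
  have hpb := fin_mcost_bij (hpp p hp)
  have he : (fun x => φ 1 (Function.invFun p (p x))) = φ 1 := by
    funext x
    rw [Function.leftInverse_invFun hpb.1 x]
  rwa [he] at hcomp

theorem fin_diam (hE : EKit) (hBU : BUthm) (hq : QCKit) (h1 : ∀ (L : ℕ) (θ : ℝ), Stb L θ id 1)
    (hm : SKmul) (hi : SKinv) (hs : PCswap) (ht : PCtri) (hCB : CBthm) (hR : RELthm)
    (hPm : PPmul) (hPg : PPgen) (hD : DMain) (hN1 : NM1) (M : Type) [TopologicalSpace M] [T2Space M]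
    [CompactSpace M] [Nonempty M] (ι : Type) [Fintype ι] (ch : ι → OpenPartialHomeomorph M (Eu 4))
    (o : ι) (K : ι → Set (Eu 4)) (hG : Geo ch o K) (hex : ∀ X, DivFree ch X → Exact ch X)
    (χ : ι → Eu 4 → ℝ) (hχ : PartUnity ch χ) (s : ℝ)
    (hs0 : 0 ≤ s) (hs1 : s < 1) : diam ch (w1Man χ s) < ⊤ := by
  obtain ⟨C, hC, hb⟩ := fin_bound hE hBU hq h1 hm hi hs ht hCB hR hPm hPg hD M ι ch o K hG hex s hs0 hs1
  obtain ⟨C', hC', hn⟩ := hN1 4 M ι ch hG.vol K hG.cov χ hχ (by norm_num) s hs0 hs1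
  refine lt_of_le_of_lt ?_ (ENNReal.ofReal_lt_top (r := C' * C))
  unfold diam
  refine iSup_le fun f => iSup_le fun hf => iSup_le fun g => iSup_le fun hg => ?_
  rw [TrB.sdist_eq]
  rw [TrB.mg_iff] at hf hg
  obtain ⟨φ, hφ, hφ0, rfl⟩ := hf
  obtain ⟨ψ, hψ, hψ0, rfl⟩ := hg
  have hh : InGM ch (fun x => ψ 1 (Function.invFun (φ 1) x)) := by
    refine ⟨fun t x => ψ t (Function.invFun (φ t) x), mFamKit.comp 4 M ι ch hG.vol ℝ _ _ hψ
      (mFamKit.inv 4 M ι ch hG.vol ℝ φ hφ), ?_, rfl⟩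
    funext x
    show ψ 0 (Function.invFun (φ 0) x) = x
    rw [hψ0, hφ0]
    exact Function.leftInverse_invFun Function.injective_id x
  have hcost := fin_mcost_norm hG.vol hC' hn (hb _ hh)
  refine (mCostKit mFamKit).dist 4 M ι ch hG.vol (w1Man χ s) _ (φ 1) (ψ 1) _ hcost
    ⟨φ, hφ, hφ0, rfl⟩ ?_
  intro x
  show ψ 1 (Function.invFun (φ 1) (φ 1 x)) = ψ 1 x
  rw [Function.leftInverse_invFun (hφ.bij 1).1 x]

theorem fin_zero {n : ℕ} (hn : 3 ≤ n) (hN2 : NM2) (M : Type) [TopologicalSpace M] [T2Space M]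
    [CompactSpace M] [Nonempty M] (ι : Type) [Fintype ι] (ch : ι → OpenPartialHomeomorph M (Eu n))
    (hV : VolAtlas ch) (hex : ∀ X, DivFree ch X → Exact ch X) (χ : ι → Eu n → ℝ)
    (hχ : PartUnity ch χ) (s : ℝ) (hs : s < 0) : diam ch (w1Man χ s) = 0 := by
  have hN := hN2 n M ι ch hV χ hχ (by omega) s hs
  refine le_antisymm ?_ zero_le
  unfold diam
  refine iSup_le fun f => iSup_le fun hf => iSup_le fun g => iSup_le fun hg => ?_
  rw [TrB.mg_iff] at hf hg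
  rw [TrB.sdist_eq]
  obtain ⟨φ, h1, h2, rfl⟩ := hf
  obtain ⟨ψ, h3, h4, rfl⟩ := hg
  have F := mFamKit
  have hA : MFam ch (fun t x => ψ t (Function.invFun (φ t) (φ 1 x))) := by
    have h5 : MFam ch (fun _ : ℝ => φ 1) := F.re n M ι ch ℝ ℝ φ (fun _ => 1) h1 contDiff_const
    exact F.comp n M ι ch hV ℝ _ _ h3 (F.comp n M ι ch hV ℝ _ _ (F.inv n M ι ch hV ℝ φ h1) h5)
  have hfld := fun t => F.velFld n M ι ch hV _ hA t
  have hdiv := fun t => mVelDiv F n M ι ch hV _ hA t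
  have h6 := TrB.vanish hn ch hV _ 1 hN _ hA fun t => TrB.exact_fld ch _ (hex _
    ⟨(hfld t).smooth, (hfld t).out, (hfld t).compat, fun i y hy => hdiv t i y hy⟩)
  have h7 : (fun x => ψ 0 (Function.invFun (φ 0) (φ 1 x))) = φ 1 := by
    funext x
    have h8 : Function.invFun (id : M → M) (φ 1 x) = φ 1 x :=
      Function.leftInverse_invFun Function.injective_id _
    rw [h2, h4, h8, id]
  have h9 : (fun x => ψ 1 (Function.invFun (φ 1) (φ 1 x))) = ψ 1 := by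
    funext x
    rw [Function.leftInverse_invFun (h1.bij 1).1 x]
  simp only [h7, h9] at h6
  exact h6.le

theorem fin_id {n : ℕ} (M : Type) [TopologicalSpace M] (ι : Type)
    (ch : ι → OpenPartialHomeomorph M (Eu n)) (hV : VolAtlas ch) : MG ch id := by
  rw [TrB.mg_iff]
  exact ⟨fun _ x => x, mFamKit.id n M ι ch hV ℝ, rfl, rfl⟩

/-- The sharp trichotomy. -/
theorem trichotomy (hE : EKit) (hBU : BUthm) (hq : QCKit) (h1 : ∀ (L : ℕ) (θ : ℝ), Stb L θ id 1)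
    (hm : SKmul) (hi : SKinv) (hs : PCswap) (ht : PCtri) (hCB : CBthm) (hR : RELthm)
    (hPm : PPmul) (hPg : PPgen) (hD : DMain) (hN1 : NM1) (hN2 : NM2) (hN3 : NM3) (hN4 : NM4)
    (hG1 : GE1) (hG2 : GE2) (hEX : EXthm) (hPU : PUthm) : Trichotomy := by
  obtain ⟨S, tS, A, B, hT2, hCo, hCn, hS⟩ := hG1
  obtain ⟨K, hG⟩ := hG2 S A B hS
  haveI : Nonempty S := hCn.toNonempty
  have hex := hEX S A B hS
  refine ⟨S × S, inferInstance, inferInstance, Fin 2 × Fin 2, inferInstance, pch A B, inferInstance,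
    inferInstance, inferInstance, hG.vol, hPU 4 (S × S) _ _ hG.vol, ?_⟩
  intro χ hχ s
  refine ⟨fun hs' => fin_zero (by norm_num) hN2 (S × S) _ _ hG.vol hex χ hχ s hs', ?_, ?_⟩
  · intro hs0 hs1
    refine ⟨?_, fin_diam hE hBU hq h1 hm hi hs ht hCB hR hPm hPg hD hN1 (S × S) _ _ _ K hG hex χ hχ s
      hs0 hs1⟩
    obtain ⟨f, hf, hpos⟩ := hN3 4 (S × S) _ _ hG.vol χ hχ (by norm_num) s hs0
    refine lt_of_lt_of_le hpos ?_
    unfold diam
    exact le_iSup₂_of_le (id : S × S → S × S) (fin_id _ _ _ hG.vol) (le_iSup₂_of_le f hf le_rfl)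
  · intro hs1
    refine ENNReal.eq_top_of_forall_nnreal_le fun r => le_of_lt ?_
    obtain ⟨f, hf, hb⟩ := hN4 4 (S × S) _ _ hG.vol χ hχ (by norm_num) s hs1 (r + 1)
    refine lt_of_lt_of_le (b := ENNReal.ofReal ((r : ℝ) + 1)) ?_ (hb.trans ?_)
    · rw [← ENNReal.ofReal_coe_nnreal]
      exact (ENNReal.ofReal_lt_ofReal_iff (by positivity)).mpr (by linarith)
    · unfold diam
      exact le_iSup₂_of_le (id : S × S → S × S) (fin_id _ _ _ hG.vol) (le_iSup₂_of_le f hf le_rfl)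

end

end Pool.Agent.H6.ST
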