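import Pool.Agent.H6.ST.Defs
import Pool.Agent.H68.GM.St

/-! # The sharp trichotomy (ST): the statements of the blocks -/

namespace Pool.Agent.H6.ST

open MeasureTheory Set Pool.Agent.H68.VD Pool.Agent.H68.GM
open scoped ENNReal ContDiff

noncomputable section

/-! ### Flat costs (FK) -/

/-- The calculus of flat costs. -/
structure FKit : Prop where
  id : ∀ (n : ℕ) (s : ℝ) (U : Set (Eu n)), 0 ≤ s → s < 1 → FCost s U id 0
  mono : ∀ (n : ℕ) (s : ℝ) (U V : Set (Eu n)) (f : Eu n → Eu n) (a b : ℝ), U ⊆ V → a ≤ b →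
    FCost s U f a → FCost s V f b
  comp : ∀ (n : ℕ) (s : ℝ) (U : Set (Eu n)) (f g : Eu n → Eu n) (a b : ℝ), 0 ≤ s → s < 1 →
    FCost s U f a → FCost s U g b → FCost s U (fun x => f (g x)) (a + b)
  inv : ∀ (n : ℕ) (s : ℝ) (U : Set (Eu n)) (f : Eu n → Eu n) (a : ℝ), 0 ≤ s → s < 1 →
    FCost s U f a → FCost s U (Function.invFun f) a
  shift : ∀ (n : ℕ) (s : ℝ) (U : Set (Eu n)) (f : Eu n → Eu n) (a : ℝ) (v : Eu n), 0 ≤ s → s < 1 →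
    FCost s U f a → FCost s {x | x - v ∈ U} (fun x => f (x - v) + v) a
  scale : ∀ (n : ℕ) (s : ℝ) (U : Set (Eu n)) (f : Eu n → Eu n) (a ρ : ℝ), 0 ≤ s → s < 1 → 0 < ρ →
    FCost s U f a →
    FCost s {x | ρ⁻¹ • x ∈ U} (fun x => ρ • f (ρ⁻¹ • x)) (ρ ^ ((n : ℝ) + 1 - s) * a)
  path : ∀ (n : ℕ) (s : ℝ) (U : Set (Eu n)) (f : Eu n → Eu n) (Φ : ℝ → Eu n → Eu n), 0 ≤ s →
    s < 1 → IsOpen U → CPath U f Φ → ∀ C : ℝ, 0 ≤ C →
    (∀ t ∈ Set.Icc (0 : ℝ) 1, FE s (vel Φ t) ≤ ENNReal.ofReal C) → FCost s U f C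
  /-- Every map that can be joined to the identity has a finite cost. -/
  fin : ∀ (n : ℕ) (s : ℝ) (U : Set (Eu n)) (f : Eu n → Eu n) (Φ : ℝ → Eu n → Eu n), 0 ≤ s →
    s < 1 → IsOpen U → CPath U f Φ → ∃ C : ℝ, 0 ≤ C ∧ FCost s U f C

/-! ### Costs on the manifold (EK) -/

/-- The calculus of the cost `EM` on `M`. -/
structure EKit : Prop where
  comp : ∀ (n : ℕ) (M : Type) [TopologicalSpace M] [T2Space M] [CompactSpace M] [Nonempty M]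
    (ι : Type) [Fintype ι] (ch : ι → OpenPartialHomeomorph M (Eu n)), VolAtlas ch →
    ∀ K, KCov ch K → ∀ s : ℝ, 0 ≤ s → s < 1 → ∀ f g a b, MCost ch (EM K s) f a →
    MCost ch (EM K s) g b → MCost ch (EM K s) (fun x => f (g x)) (a + b)
  inv : ∀ (n : ℕ) (M : Type) [TopologicalSpace M] [T2Space M] [CompactSpace M] [Nonempty M]
    (ι : Type) [Fintype ι] (ch : ι → OpenPartialHomeomorph M (Eu n)), VolAtlas ch →
    ∀ K, KCov ch K → ∀ s : ℝ, 0 ≤ s → s < 1 → ∀ f a, MCost ch (EM K s) f a →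
    MCost ch (EM K s) (Function.invFun f) a
  conj : ∀ (n : ℕ) (M : Type) [TopologicalSpace M] [T2Space M] [CompactSpace M] [Nonempty M]
    (ι : Type) [Fintype ι] (ch : ι → OpenPartialHomeomorph M (Eu n)), VolAtlas ch →
    ∀ K, KCov ch K → ∀ s : ℝ, 0 ≤ s → s < 1 → ∀ Φ : ℝ → M → M, MFam ch Φ → ∃ C : ℝ, 0 ≤ C ∧
    ∀ t ∈ Set.Icc (0 : ℝ) 1, ∀ f a, MCost ch (EM K s) f a →
    MCost ch (EM K s) (fun x => Φ t (f (Function.invFun (Φ t) x))) (C * a)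
  path : ∀ (n : ℕ) (M : Type) [TopologicalSpace M] [T2Space M] [CompactSpace M] [Nonempty M]
    (ι : Type) [Fintype ι] (ch : ι → OpenPartialHomeomorph M (Eu n)), VolAtlas ch →
    ∀ K, KCov ch K → ∀ s : ℝ, 0 ≤ s → s < 1 → ∀ φ, MFam ch φ → φ 0 = id → ∀ T C : ℝ, 0 ≤ T →
    0 ≤ C → (∀ t ∈ Set.Icc (0 : ℝ) T, EM K s (mvel ch φ t) ≤ ENNReal.ofReal C) →
    MCost ch (EM K s) (φ T) (C * T)
  /-- Fields with a small `C^1` norm have small `L^1` and `W^{1,1}` norms. -/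
  sup : ∀ (n : ℕ) (M : Type) [TopologicalSpace M] [T2Space M] [CompactSpace M] [Nonempty M]
    (ι : Type) [Fintype ι] (ch : ι → OpenPartialHomeomorph M (Eu n)), VolAtlas ch →
    ∀ K, KCov ch K → ∀ (i : ι) (K' : Set (Eu n)), IsCompact K' → K' ⊆ (ch i).target →
    ∃ C : ℝ, 0 ≤ C ∧ ∀ u : Eu n → Eu n, ContDiff ℝ ∞ u → (∀ y ∉ K', u y = 0) → ∀ b : ℝ, 0 ≤ b →
    (∀ y, ‖u y‖ ≤ b ∧ ‖fderiv ℝ u y‖ ≤ b) →
    L1M K (push ch i u) ≤ ENNReal.ofReal (C * b) ∧ W1M K (push ch i u) ≤ ENNReal.ofReal (C * b)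

/-! ### Extension from the chart and transfer of costs (TM) -/

/-- Extension by the identity of compactly supported families. -/
structure XKit : Prop where
  fam : ∀ (n : ℕ) (M : Type) [TopologicalSpace M] [T2Space M] (ι : Type)
    (ch : ι → OpenPartialHomeomorph M (Eu n)), VolAtlas ch → ∀ (i : ι) (E : Type)
    [NormedAddCommGroup E] [NormedSpace ℝ E] (T : E → Eu n → Eu n), CF (ch i).target T →
    MFam ch (fun e => extM ch i (T e))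
  comp : ∀ (n : ℕ) (M : Type) [TopologicalSpace M] (ι : Type)
    (ch : ι → OpenPartialHomeomorph M (Eu n)) (i : ι) (S T : Eu n → Eu n),
    (∀ y ∈ (ch i).target, T y ∈ (ch i).target) →
    ∀ x, extM ch i (fun y => S (T y)) x = extM ch i S (extM ch i T x)
  inv : ∀ (n : ℕ) (M : Type) [TopologicalSpace M] [Nonempty M] (ι : Type)
    (ch : ι → OpenPartialHomeomorph M (Eu n)) (i : ι) (T : Eu n → Eu n), Function.Bijective T →
    (∀ y, T y ∈ (ch i).target ↔ y ∈ (ch i).target) →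
    extM ch i (Function.invFun T) = Function.invFun (extM ch i T)
  vel : ∀ (n : ℕ) (M : Type) [TopologicalSpace M] [T2Space M] [Nonempty M] (ι : Type)
    (ch : ι → OpenPartialHomeomorph M (Eu n)), VolAtlas ch → ∀ (i : ι) (T : ℝ → Eu n → Eu n),
    CF (ch i).target T → ∀ t j y, mvel ch (fun t => extM ch i (T t)) t j y = push ch i (vel T t) j y

/-- Lattice costs give costs on `M`. -/
def TMthm : Prop := ∀ (M : Type) [TopologicalSpace M] [T2Space M] [CompactSpace M] [Nonempty M]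
  (ι : Type) [Fintype ι] (ch : ι → OpenPartialHomeomorph M (Eu 4)) (o : ι) (K : ι → Set (Eu 4)),
  Geo ch o K → ∀ s : ℝ, 0 ≤ s → s < 1 → ∀ B : ℝ, ∃ C : ℝ, 0 ≤ C ∧
  ∀ (L : ℕ) (lo hi : Fin 4 → ℝ) (d : ℝ), 0 < d → (∀ k, d ≤ lo k ∧ hi k ≤ (NN L : ℝ) - d) →
  hi 0 - lo 0 ≤ B * d → ∀ (F : Eu 4 → Eu 4) (b : ℝ), FCost s (obox lo hi) F b →
  MCost ch (EM K s) (toM ch o (NN L) F)
    (C * (d / NN L) ^ (-((1 + s) / 2)) * (NN L : ℝ) ^ (-(5 - s)) * b)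

/-! ### Blow-up (BU), rel cores (TL), swaps of cells (X2), commutators (BC) -/

def BUthm : Prop := ∀ s : ℝ, 0 ≤ s → s < 1 → ∃ (θ : ℝ) (ζ : ℝ → Eu 4 → Eu 4), Blow s θ ζ

/-- A path rel small balls around the centres of the cells can be replaced by a path rel cores. -/
def TLthm : Prop := ∀ θ : ℝ, 0 < θ → θ < 1 / 4 → ∀ (L : ℕ) (w : Eu 4 → Eu 4)
  (Φ : ℝ → Eu 4 → Eu 4) (r : ℝ), CPath (bigC L) w Φ → 0 < r →
  (∀ t c, BigCell L c → ∀ x, ‖x - ctr c‖ ≤ r → Φ t x = x) →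
  (∀ c, BigCell L c → ∀ x ∈ core θ c, w x = x) →
  ∃ Φ' : ℝ → Eu 4 → Eu 4, CPath (bigC L) w Φ' ∧
    ∀ t c, BigCell L c → ∀ x ∈ core θ c, Φ' t x = x

/-- The swap of two adjacent cells. -/
def X2thm : Prop := ∀ (s θ : ℝ) (ζ : ℝ → Eu 4 → Eu 4), 0 ≤ s → s < 1 → Blow s θ ζ → ∀ k : Fin 4,
  ∃ (F : Eu 4 → Eu 4) (Φ : ℝ → Eu 4 → Eu 4) (C : ℝ),
    CPath (ibox (fun _ => 0) (fun m => if m = k then 2 else 1)) F Φ ∧
    (∀ x ∈ core θ (fun _ => 0), F x = x + ev k) ∧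
    (∀ x ∈ core θ (Pi.single k 1), F x = x - ev k) ∧
    (∀ c : Fin 4 → ℤ, ∃ H, Contr (fun t => fderiv ℝ (Φ t) (ctr c)) H) ∧ 0 ≤ C ∧
    ∀ τ ≤ 0, FCost s (ibox (fun _ => 0) (fun m => if m = k then 2 else 1)) (Th ζ τ F) C

/-- Commutators of shears are close to lattice maps. -/
def BCthm : Prop := ∀ (s θ : ℝ) (ζ : ℝ → Eu 4 → Eu 4), 0 ≤ s → s < 1 → Blow s θ ζ →
  ∀ B : ℝ, ∃ C : ℝ, 0 ≤ C ∧ ∀ (i j : Fin 4) (f g : Eu 4 → ℝ) (lo hi : Fin 4 → ℤ)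
    (Fm Fp Gm Gp : ℕ), CG i j f g (fun k => lo k) (fun k => hi k) Fm Fp Gm Gp →
  (∀ x, ‖fderiv ℝ f x‖ ≤ B ∧ ‖fderiv ℝ g x‖ ≤ B ∧ ‖fderiv ℝ (fderiv ℝ f) x‖ ≤ B ∧
    ‖fderiv ℝ (fderiv ℝ g) x‖ ≤ B) →
  ∃ (F : Eu 4 → Eu 4) (Φ : ℝ → Eu 4 → Eu 4),
    CPath (obox (fun k => cLo i j (fun k => lo k) Fm Gm k - 1)
      (fun k => cHi i j (fun k => hi k) Fp Gp k + 1)) F Φ ∧
    (∀ c, ∀ x ∈ core θ c, F x = x + (iv (qmap i j f g c) - iv c)) ∧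
    (∀ c : Fin 4 → ℤ, ∃ H, Contr (fun t => fderiv ℝ (Φ t) (ctr c)) H) ∧
    ∀ τ ≤ 0, FCost s (obox (fun k => cLo i j (fun k => lo k) Fm Gm k - 1)
      (fun k => cHi i j (fun k => hi k) Fp Gp k + 1))
      (fun x => comm i j f g (Function.invFun (Th ζ τ F) x))
      (C * ∏ k, (cHi i j (fun k => hi k) Fp Gp k - cLo i j (fun k => lo k) Fm Gm k + 2))

/-! ### Tracked elements (SK), isotopies (LP) -/

/-- The calculus of lattice maps. -/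
structure SKit : Prop where
  one : ∀ (L : ℕ) (θ : ℝ), Stb L θ id 1
  mul : ∀ (L : ℕ) (θ : ℝ), 0 < θ → θ < 1 / 4 → ∀ F G σ τ, Stb L θ F σ → Stb L θ G τ →
    Stb L θ (fun x => F (G x)) (σ * τ)
  inv : ∀ (L : ℕ) (θ : ℝ), 0 < θ → θ < 1 / 4 → ∀ F σ, Stb L θ F σ →
    Stb L θ (Function.invFun F) σ⁻¹
  cr : ∀ (L : ℕ) (θ : ℝ) F σ, Stb L θ F σ → CR θ (bigC L) F
  /-- `Th` of lattice maps -/
  th : ∀ (s θ : ℝ) (ζ : ℝ → Eu 4 → Eu 4), 0 ≤ s → s < 1 → Blow s θ ζ → ∀ (L : ℕ) F σ,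
    Stb L θ F σ → ∀ τ ≤ 0, Function.Bijective (Th ζ τ F) ∧
      (∀ y, Th ζ τ F y ∈ bigC L ↔ y ∈ bigC L) ∧ (∀ y ∉ innC L, Th ζ τ F y = y) ∧
      ∀ y, Function.invFun (Th ζ τ F) y = Th ζ τ (Function.invFun F) y

/-- A lattice map that fixes all cells can be joined to the identity rel small balls. -/
def LPthm : Prop := ∀ (L : ℕ) (θ : ℝ) (w : Eu 4 → Eu 4), 0 < θ → θ < 1 / 4 → Stb L θ w 1 →
  ∃ (Φ : ℝ → Eu 4 → Eu 4) (r : ℝ), CPath (bigC L) w Φ ∧ 0 < r ∧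
    ∀ t c, BigCell L c → ∀ x, ‖x - ctr c‖ ≤ r → Φ t x = x

/-! ### Combinatorics (CB), and its application (PC) -/

def CBthm : Prop := ∀ q a : ℝ, 4 < q → 0 ≤ a → a < 1 → ∀ (C0 : ℝ) (Ck : ℕ → ℝ), 0 ≤ C0 →
  (∀ κ, 0 ≤ Ck κ) → ∃ C : ℝ, 0 ≤ C ∧ ∀ (L : ℕ) (P : Equiv.Perm (Cell L) → ℝ → Prop),
  PC q a C0 Ck L P → ∀ σ, P σ C

def PCthm : Prop := ∀ (M : Type) [TopologicalSpace M] [T2Space M] [CompactSpace M] [Nonempty M]
  (ι : Type) [Fintype ι] (ch : ι → OpenPartialHomeomorph M (Eu 4)) (o : ι) (K : ι → Set (Eu 4)),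
  Geo ch o K → ∀ (s θ : ℝ) (ζ : ℝ → Eu 4 → Eu 4), 0 ≤ s → s < 1 → Blow s θ ζ →
  ∃ (C0 : ℝ) (Ck : ℕ → ℝ), 0 ≤ C0 ∧ (∀ κ, 0 ≤ Ck κ) ∧ ∀ L : ℕ, PC (5 - s) ((1 + s) / 2) C0 Ck L
    (fun σ b => ∃ F, Stb L θ F σ ∧ QC ch o K s ζ L F b)

/-- Lattice maps that fix all cells have limit cost zero. -/
def RELthm : Prop := ∀ (M : Type) [TopologicalSpace M] [T2Space M] [CompactSpace M] [Nonempty M]
  (ι : Type) [Fintype ι] (ch : ι → OpenPartialHomeomorph M (Eu 4)) (o : ι) (K : ι → Set (Eu 4)),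
  Geo ch o K → ∀ (s θ : ℝ) (ζ : ℝ → Eu 4 → Eu 4), 0 ≤ s → s < 1 → Blow s θ ζ → ∀ (L : ℕ)
  (w : Eu 4 → Eu 4), Stb L θ w 1 → QC ch o K s ζ L w 0

/-! ### Density (DE) -/

structure PPKit : Prop where
  mul : ∀ (M : Type) [TopologicalSpace M] [T2Space M] [CompactSpace M] [Nonempty M]
    (ι : Type) [Fintype ι] (ch : ι → OpenPartialHomeomorph M (Eu 4)) (o : ι) (K : ι → Set (Eu 4)),
    Geo ch o K → ∀ (s θ : ℝ) (ζ : ℝ → Eu 4 → Eu 4), 0 ≤ s → s < 1 → Blow s θ ζ →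
    ∀ f g, PP ch o K s θ ζ f → PP ch o K s θ ζ g → PP ch o K s θ ζ (fun x => f (g x))
  gen : ∀ (M : Type) [TopologicalSpace M] [T2Space M] [CompactSpace M] [Nonempty M]
    (ι : Type) [Fintype ι] (ch : ι → OpenPartialHomeomorph M (Eu 4)) (o : ι) (K : ι → Set (Eu 4)),
    Geo ch o K → ∀ (s θ : ℝ) (ζ : ℝ → Eu 4 → Eu 4), 0 ≤ s → s < 1 → Blow s θ ζ →
    ∀ i j f g, GU i j f g → PP ch o K s θ ζ (extM ch o (comm i j f g))

/-- The velocities of commutators are dense in the exact fields. -/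
def Dens : Prop := ∀ (M : Type) [TopologicalSpace M] [T2Space M] [CompactSpace M] [Nonempty M]
  (ι : Type) [Fintype ι] (ch : ι → OpenPartialHomeomorph M (Eu 4)) (o : ι) (K : ι → Set (Eu 4)),
  Geo ch o K → ∀ s : ℝ, 0 ≤ s → s < 1 → ∀ X, Exact ch X → ∀ η : ℝ, 0 < η →
  ∃ (m : ℕ) (i j : Fin m → Fin 4) (f g : Fin m → Eu 4 → ℝ), (∀ k, GU (i k) (j k) (f k) (g k)) ∧
    EM K s (fun a y => X a y - ∑ k, push ch o (vfg (i k) (j k) (f k) (g k)) a y) ≤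
      ENNReal.ofReal η

/-- Exact paths are approximated by products of commutators. -/
def DMain : Prop := ∀ (M : Type) [TopologicalSpace M] [T2Space M] [CompactSpace M] [Nonempty M]
  (ι : Type) [Fintype ι] (ch : ι → OpenPartialHomeomorph M (Eu 4)) (o : ι) (K : ι → Set (Eu 4)),
  Geo ch o K → ∀ s : ℝ, 0 ≤ s → s < 1 → ∀ P : (M → M) → Prop,
  (∀ f g, P f → P g → P (fun x => f (g x))) →
  (∀ i j f g, GU i j f g → P (extM ch o (comm i j f g))) → ∀ φ : ℝ → M → M, MFam ch φ →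
  φ 0 = id → (∀ t, Exact ch (mvel ch φ t)) → ∀ η : ℝ, 0 < η →
  ∃ p, P p ∧ MCost ch (EM K s) (fun x => φ 1 (Function.invFun p x)) η

/-! ### The norms (NM) -/

/-- The norm of `W^{s,1}` is bounded by the cost functional. -/
def NM1 : Prop := ∀ (n : ℕ) (M : Type) [TopologicalSpace M] [T2Space M] [CompactSpace M]
  [Nonempty M] (ι : Type) [Fintype ι] (ch : ι → OpenPartialHomeomorph M (Eu n)), VolAtlas ch →
  ∀ K, KCov ch K → ∀ χ : ι → Eu n → ℝ, PartUnity ch χ → 1 ≤ n → ∀ s : ℝ, 0 ≤ s → s < 1 →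
  ∃ C : ℝ, 0 ≤ C ∧ ∀ X, IsFld ch X → w1Man χ s X ≤ ENNReal.ofReal C * EM K s X

/-- For negative `s` the norm is a weak norm. -/
def NM2 : Prop := ∀ (n : ℕ) (M : Type) [TopologicalSpace M] [T2Space M] [CompactSpace M]
  (ι : Type) [Fintype ι] (ch : ι → OpenPartialHomeomorph M (Eu n)), VolAtlas ch →
  ∀ χ : ι → Eu n → ℝ, PartUnity ch χ → 1 ≤ n → ∀ s : ℝ, s < 0 → MWeak ch (w1Man χ s) 1

/-- For `s ≥ 0` the distance is not zero. -/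
def NM3 : Prop := ∀ (n : ℕ) (M : Type) [TopologicalSpace M] [T2Space M] [CompactSpace M]
  [Nonempty M] (ι : Type) [Fintype ι] (ch : ι → OpenPartialHomeomorph M (Eu n)), VolAtlas ch →
  ∀ χ : ι → Eu n → ℝ, PartUnity ch χ → 2 ≤ n → ∀ s : ℝ, 0 ≤ s →
  ∃ f, MG ch f ∧ 0 < sdist ch (w1Man χ s) id f

/-- For `s ≥ 1` the distance is unbounded. -/
def NM4 : Prop := ∀ (n : ℕ) (M : Type) [TopologicalSpace M] [T2Space M] [CompactSpace M]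
  [Nonempty M] (ι : Type) [Fintype ι] (ch : ι → OpenPartialHomeomorph M (Eu n)), VolAtlas ch →
  ∀ χ : ι → Eu n → ℝ, PartUnity ch χ → 2 ≤ n → ∀ s : ℝ, 1 ≤ s → ∀ C : ℝ,
  ∃ f, MG ch f ∧ ENNReal.ofReal C ≤ sdist ch (w1Man χ s) id f

/-! ### The manifold (GE), exactness (EX) -/

def GE1 : Prop := ∃ (S : Type) (_ : TopologicalSpace S) (A B : OpenPartialHomeomorph S (Eu 2)),
  T2Space S ∧ CompactSpace S ∧ ConnectedSpace S ∧ Sph A B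

def GE2 : Prop := ∀ (S : Type) [TopologicalSpace S] [T2Space S] [CompactSpace S]
  (A B : OpenPartialHomeomorph S (Eu 2)), Sph A B →
  ∃ K : Fin 2 × Fin 2 → Set (Eu 4), Geo (pch A B) (0, 0) K

def EXthm : Prop := ∀ (S : Type) [TopologicalSpace S] [T2Space S] [CompactSpace S]
  (A B : OpenPartialHomeomorph S (Eu 2)), Sph A B → ∀ X, DivFree (pch A B) X →
  Exact (pch A B) X

def PUthm : Prop := ∀ (n : ℕ) (M : Type) [TopologicalSpace M] [T2Space M] [CompactSpace M]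
  (ι : Type) [Fintype ι] (ch : ι → OpenPartialHomeomorph M (Eu n)), VolAtlas ch →
  ∃ χ : ι → Eu n → ℝ, PartUnity ch χ

/-! ### The main theorem -/

/-- There is a closed connected four dimensional manifold with a volume form such that the diameter of
the group of volume preserving diffeomorphisms for `W^{s,1}` is zero for `s < 0`, positive and finite
for `0 ≤ s < 1`, and infinite for `s ≥ 1`. -/
def Trichotomy : Prop := ∃ (M : Type) (_ : TopologicalSpace M) (_ : Nonempty M) (ι : Type)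
  (_ : Fintype ι) (ch : ι → OpenPartialHomeomorph M (Eu 4)), T2Space M ∧ CompactSpace M ∧
  ConnectedSpace M ∧ VolAtlas ch ∧ (∃ χ, PartUnity ch χ) ∧ ∀ χ, PartUnity ch χ → ∀ s : ℝ,
    (s < 0 → diam ch (w1Man χ s) = 0) ∧
    (0 ≤ s → s < 1 → 0 < diam ch (w1Man χ s) ∧ diam ch (w1Man χ s) < ⊤) ∧
    (1 ≤ s → diam ch (w1Man χ s) = ⊤)

end

end Pool.Agent.H6.ST
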